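import Pool.Agent.Helper66.OB.Dim
import Pool.Agent.Helper35.TZ.Fin2

/-!
# Project OB (MP_0f6f3f_an), layer X: `L = sl(3, ℝ)` is excluded

`exists_flat`, `finrank_flat`: maximal flats exist and have dimension `rankL θ`. `not_sl3`: with the roles exchanged, `L' = so(2, n)` embeds in the algebra of a discrete group of real matrices of size `3`. So its
restricted root system is of type `A`, its root spaces have dimension one, and it is isomorphic to `sl(3, ℝ)`, which has dimension `8 < 10 ≤ dim so(2, n)`.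
-/

set_option autoImplicit false
set_option linter.unusedSectionVars false

open Filter Topology MeasureTheory Matrix

namespace Pool.Agent.Helper66.OB

open Pool.Agent.Helper84.NI Pool.Agent.Helper90.RK Pool.Agent.Helper66.RKS Pool.Agent.Helper9.Lin Pool.Agent.Helper9.Fra
open Pool.Agent.Helper96.SA Pool.Agent.Helper96.TO
open Pool.Agent.Helper43.TA (emb_both type_emb')
open Pool.Agent.Helper43.TZ (rootSp sl_of_typeA)
open Pool.Agent.Helper78.BI (exists_emb_iso)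
open Pool.Agent.Helper42.TZ (HasSrc slR slR_equiv)
open Pool.Agent.Helper35.TZ
open Pool.Agent.Helper55.OB (so2)

variable {L : Type} [LieRing L] [LieAlgebra ℝ L] {M : ℕ} {θ : L ≃ₗ⁅ℝ⁆ L} {b : Module.Basis (Fin M) ℝ L} {A : Submodule ℝ L}

theorem finrank_flat (h : CartanBasis θ b) (hA : MaxFlat θ A) : Module.finrank ℝ A = rankL θ :=
  finrank_eq_rankL h (isAdj_autC b) hA

theorem exists_flat (_h : CartanBasis θ b) : ∃ A : Submodule ℝ L, MaxFlat θ A := by
  have hfin : Module.Finite ℝ L := Module.Finite.of_basis b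
  let S : Set ℕ := {d | ∃ a : Submodule ℝ L, (∀ x ∈ a, θ x = -x) ∧ (∀ x ∈ a, ∀ y ∈ a, ⁅x, y⁆ = 0) ∧ Module.finrank ℝ a = d}
  have hS : S.Nonempty := by
    refine ⟨0, ⊥, fun x hx => ?_, fun x hx y hy => ?_, finrank_bot ℝ L⟩
    · rw [Submodule.mem_bot] at hx
      rw [hx, map_zero, neg_zero]
    · rw [Submodule.mem_bot] at hx
      rw [hx, zero_lie]
  have hbd : BddAbove S := by
    refine ⟨Module.finrank ℝ L, ?_⟩
    rintro d ⟨a, -, -, rfl⟩
    exact Submodule.finrank_le a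
  obtain ⟨A, hneg, habel, hd⟩ := Nat.sSup_mem hS hbd
  refine ⟨A, hneg, habel, fun x hx hc => ?_⟩
  let A' : Submodule ℝ L := A ⊔ ℝ ∙ x
  have hmem : ∀ z ∈ A', ∃ y ∈ A, ∃ c : ℝ, z = y + c • x := by
    intro z hz
    obtain ⟨y, hy, w, hw, rfl⟩ := Submodule.mem_sup.1 hz
    obtain ⟨c, rfl⟩ := Submodule.mem_span_singleton.1 hw
    exact ⟨y, hy, c, rfl⟩
  have hA' : Module.finrank ℝ A' ∈ S := by
    refine ⟨A', fun z hz => ?_, fun z hz w hw => ?_, rfl⟩
    · obtain ⟨y, hy, c, rfl⟩ := hmem z hz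
      rw [map_add, map_smul, hneg y hy, hx, neg_add, smul_neg]
    · obtain ⟨y, hy, c, rfl⟩ := hmem z hz
      obtain ⟨y', hy', c', rfl⟩ := hmem w hw
      have h1 : ⁅y, x⁆ = 0 := by rw [← lie_skew, hc y hy, neg_zero]
      simp only [add_lie, lie_add, smul_lie, lie_smul, habel y hy y' hy', hc y' hy', h1, lie_self, smul_zero, add_zero]
  have h1 : Module.finrank ℝ A' ≤ Module.finrank ℝ A := by
    rw [hd]
    exact le_csSup hbd hA'
  have h2 : A = A' := Submodule.eq_of_le_of_finrank_le le_sup_left h1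
  rw [h2]
  exact Submodule.mem_sup_right (Submodule.mem_span_singleton_self x)

variable {L' : Type} [LieRing L'] [LieAlgebra ℝ L'] {M' : ℕ} {θ' : L' ≃ₗ⁅ℝ⁆ L'} {b' : Module.Basis (Fin M') ℝ L'} {N : ℕ}

attribute [local instance 100] LieRing.ofAssociativeRing

/-- **Layer X**: `sl(3, ℝ)` is excluded. -/
theorem not_sl3 [LieAlgebra.IsSimple ℝ L] [LieAlgebra.IsSimple ℝ L'] (h : CartanBasis θ b) (h' : CartanBasis θ' b') (h2' : 2 ≤ rankL θ')
    (e : L ≃ₗ⁅ℝ⁆ slR 3 ℝ) (f : L' ≃ₗ⁅ℝ⁆ so2 N) (hN : 5 ≤ N) {Γ : Subgroup (autC b)} (hL : Pool.Agent.Helper96.FR.Lattice Γ)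
    {Γ' : Subgroup (autC b')} (hL' : Pool.Agent.Helper96.FR.Lattice Γ') (hiso : IsoL Γ Γ') : False := by
  obtain ⟨A', hA'⟩ := exists_flat h'
  have hr' : 2 ≤ Module.finrank ℝ A' := by rw [finrank_flat h' hA']; exact h2'
  have hiso' : IsoL Γ' Γ := by
    obtain ⟨e⟩ := hiso
    exact ⟨e.symm⟩
  obtain ⟨i1, i2, i3⟩ := lcs_autC b'
  have hicc' : IsICC Γ' := icc_autC h' hA' hr' hL'
  obtain ⟨ρ, hρ⟩ := rep_sl ℝ (by omega) e (isAdj_autC b) (autC_sub h) Γ hL.1 Complex.ofRealHom (fun x => Complex.norm_real x)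
  obtain ⟨⟨E⟩, -⟩ := emb_both hicc' hiso'
  obtain ⟨hT, hr3⟩ := type_emb' h' (isAdj_autC b') hA' hr' hL' (by omega) ρ E
  obtain ⟨μ, hμ, hμ0, hd, hs⟩ := exists_mu h' hA' hr' hT
  have e1 : Module.finrank ℝ A' = 2 := by omega
  have h4 : μ = 1 := by
    by_contra hc
    obtain ⟨E1, hE1, hicc1⟩ := exists_emb_iso hicc' hiso'
    rw [e1] at hs
    refine src_R (n := 3) (P := ρ.ph) le_rfl hs hL' (fun g => ?_) ?_ E1 hE1 hicc1
    · obtain ⟨K, hK⟩ := hρ g
      rw [hK]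
      ext i j
      rw [cjM_apply, map_apply]
      exact Complex.conj_ofReal _
    · omega
  obtain ⟨g⟩ := sl_of_typeA h' hA' hr' hT (h4 ▸ hd)
  rw [e1] at g
  have h5 : Module.finrank ℝ (so2 N) = Module.finrank ℝ (LieAlgebra.SpecialLinear.sl (Fin (2 + 1)) ℝ) :=
    (f.symm.trans g).toLinearEquiv.finrank_eq
  rw [finrank_so2] at h5
  have h6 : Module.finrank ℝ (LieAlgebra.SpecialLinear.sl (Fin (2 + 1)) ℝ) ≤ 9 := by
    refine (Submodule.finrank_le (LieAlgebra.SpecialLinear.sl (Fin (2 + 1)) ℝ).toSubmodule).trans ?_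
    rw [Module.finrank_matrix, Module.finrank_self, Fintype.card_fin]
  have h7 : 20 ≤ N * (N - 1) := by
    obtain ⟨c, rfl⟩ : ∃ c, N = c + 5 := ⟨N - 5, by omega⟩
    have e2 : c + 5 - 1 = c + 4 := rfl
    rw [e2]
    nlinarith
  omega

end Pool.Agent.Helper66.OB
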