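import Pool.Agent.Helper55.OB.Defs

/-!
# Project OB (MP_0f6f3f_an), layer X: the dimension of `so(2, n)`

`finrank_so2`: `dim so2 N = N (N - 1) / 2` (`X ↦ J X` is an isomorphism with the skew-symmetric matrices). `so2_inj`.
-/

set_option autoImplicit false

open Matrix

namespace Pool.Agent.Helper66.OB

open Pool.Agent.Helper55.OB

attribute [local instance 100] LieRing.ofAssociativeRing

theorem jj_jj {N : ℕ} (i : Fin N) : jj N (jj N i) = i := by
  unfold jj
  have hi := i.2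
  by_cases h : (i : ℕ) < 2 ∨ N ≤ (i : ℕ) + 2
  · have h' : ((i.rev : Fin N) : ℕ) < 2 ∨ N ≤ ((i.rev : Fin N) : ℕ) + 2 := by
      rw [Fin.val_rev]
      omega
    rw [if_pos h, if_pos h', Fin.rev_rev]
  · rw [if_neg h, if_neg h]

theorem JR_transpose (N : ℕ) : (JR N)ᵀ = JR N := by
  ext i j
  rw [transpose_apply, JR, of_apply, of_apply]
  by_cases h : i = jj N j
  · rw [if_pos h, if_pos (by rw [h, jj_jj])]
  · rw [if_neg h, if_neg]
    intro h'
    exact h (by rw [h', jj_jj])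

theorem JR_mul (N : ℕ) : JR N * JR N = 1 := by
  ext i j
  rw [mul_apply]
  have h1 : ∀ k, JR N i k * JR N k j = if k = jj N i then (if j = i then (1 : ℝ) else 0) else 0 := by
    intro k
    rw [JR, of_apply, of_apply]
    by_cases h : k = jj N i
    · rw [if_pos h, if_pos h, one_mul, h, jj_jj]
    · rw [if_neg h, if_neg h, zero_mul]
  rw [Finset.sum_congr rfl fun k _ => h1 k, Finset.sum_ite_eq' Finset.univ (jj N i), if_pos (Finset.mem_univ _), one_apply]
  by_cases h : i = j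
  · rw [if_pos h, if_pos h.symm]
  · rw [if_neg h, if_neg fun h' => h h'.symm]

/-- The coordinates: the entries of `J X` above the diagonal. -/
def co (N : ℕ) : so2 N →ₗ[ℝ] ((Σ j : Fin N, Fin (j : ℕ)) → ℝ) where
  toFun X p := (JR N * (X : Matrix (Fin N) (Fin N) ℝ)) ⟨(p.2 : ℕ), p.2.2.trans p.1.2⟩ p.1
  map_add' X Y := by
    funext p
    change (JR N * ((X : Matrix (Fin N) (Fin N) ℝ) + (Y : Matrix (Fin N) (Fin N) ℝ))) _ _ = _
    rw [Matrix.mul_add]
    rfl
  map_smul' c X := by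
    funext p
    change (JR N * (c • (X : Matrix (Fin N) (Fin N) ℝ))) _ _ = _
    rw [Matrix.mul_smul]
    rfl

theorem skew_of_mem {N : ℕ} {X : Matrix (Fin N) (Fin N) ℝ} (h : X ∈ so2 N) : (JR N * X)ᵀ = -(JR N * X) := by
  rw [transpose_mul, JR_transpose]
  exact eq_neg_of_add_eq_zero_left h

theorem mem_of_skew {N : ℕ} {Y : Matrix (Fin N) (Fin N) ℝ} (h : Yᵀ = -Y) : JR N * Y ∈ so2 N := by
  change (JR N * Y)ᵀ * JR N + JR N * (JR N * Y) = 0
  rw [transpose_mul, JR_transpose, Matrix.mul_assoc, JR_mul, Matrix.mul_one, ← Matrix.mul_assoc, JR_mul, Matrix.one_mul, h, neg_add_cancel]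

theorem co_injective (N : ℕ) : Function.Injective (co N) := by
  rw [← LinearMap.ker_eq_bot, LinearMap.ker_eq_bot']
  intro X hX
  have hs := skew_of_mem X.2
  have hu : ∀ i j : Fin N, i < j → (JR N * (X : Matrix (Fin N) (Fin N) ℝ)) i j = 0 := fun i j hij =>
    congrFun hX ⟨j, ⟨(i : ℕ), hij⟩⟩
  have h0 : JR N * (X : Matrix (Fin N) (Fin N) ℝ) = 0 := by
    ext i j
    rw [Matrix.zero_apply]
    have h1 : (JR N * (X : Matrix (Fin N) (Fin N) ℝ)) j i = -(JR N * (X : Matrix (Fin N) (Fin N) ℝ)) i j := by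
      have := congrFun (congrFun hs i) j
      rw [transpose_apply, neg_apply] at this
      exact this
    rcases lt_trichotomy i j with h | h | h
    · exact hu i j h
    · subst h
      linarith
    · have := hu j i h
      linarith
  apply Subtype.ext
  change (X : Matrix (Fin N) (Fin N) ℝ) = 0
  have h2 : JR N * (JR N * (X : Matrix (Fin N) (Fin N) ℝ)) = 0 := by rw [h0, Matrix.mul_zero]
  rwa [← Matrix.mul_assoc, JR_mul, Matrix.one_mul] at h2

theorem co_surjective (N : ℕ) : Function.Surjective (co N) := by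
  intro f
  let Y : Matrix (Fin N) (Fin N) ℝ := Matrix.of fun i j =>
    if h : (i : ℕ) < (j : ℕ) then f ⟨j, ⟨(i : ℕ), h⟩⟩ else if h : (j : ℕ) < (i : ℕ) then -f ⟨i, ⟨(j : ℕ), h⟩⟩ else 0
  have hY : Yᵀ = -Y := by
    ext i j
    rw [transpose_apply, neg_apply]
    change (if h : (j : ℕ) < (i : ℕ) then f ⟨i, ⟨(j : ℕ), h⟩⟩ else if h : (i : ℕ) < (j : ℕ) then -f ⟨j, ⟨(i : ℕ), h⟩⟩ else 0) =
      -(if h : (i : ℕ) < (j : ℕ) then f ⟨j, ⟨(i : ℕ), h⟩⟩ else if h : (j : ℕ) < (i : ℕ) then -f ⟨i, ⟨(j : ℕ), h⟩⟩ else 0)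
    by_cases h1 : (i : ℕ) < (j : ℕ)
    · rw [dif_neg (by omega), dif_pos h1, dif_pos h1]
    · by_cases h2 : (j : ℕ) < (i : ℕ)
      · rw [dif_pos h2, dif_neg h1, dif_pos h2, neg_neg]
      · rw [dif_neg h2, dif_neg h1, dif_neg h1, dif_neg h2, neg_zero]
  refine ⟨⟨JR N * Y, mem_of_skew hY⟩, ?_⟩
  funext p
  change (JR N * (JR N * Y)) _ _ = _
  rw [← Matrix.mul_assoc, JR_mul, Matrix.one_mul]
  exact dif_pos p.2.2

theorem finrank_so2 (N : ℕ) : Module.finrank ℝ (so2 N) = N * (N - 1) / 2 := by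
  rw [(LinearEquiv.ofBijective (co N) ⟨co_injective N, co_surjective N⟩).finrank_eq, Module.finrank_fintype_fun_eq_card,
    Fintype.card_sigma]
  simp only [Fintype.card_fin]
  rw [Fin.sum_univ_eq_sum_range (fun i => i) N, Finset.sum_range_id]

theorem so2_inj {n m : ℕ} (hn : 5 ≤ n) (hm : 5 ≤ m) (h : Nonempty (so2 n ≃ₗ⁅ℝ⁆ so2 m)) : n = m := by
  obtain ⟨e⟩ := h
  have h1 : n * (n - 1) / 2 = m * (m - 1) / 2 := by
    rw [← finrank_so2, ← finrank_so2]
    exact e.toLinearEquiv.finrank_eq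
  have key : ∀ a b : ℕ, 5 ≤ a → a < b → a * (a - 1) / 2 < b * (b - 1) / 2 := by
    intro a b ha hab
    obtain ⟨c, rfl⟩ : ∃ c, b = a + 1 + c := ⟨b - (a + 1), by omega⟩
    obtain ⟨d, rfl⟩ : ∃ d, a = d + 1 := ⟨a - 1, by omega⟩
    have e1 : d + 1 - 1 = d := rfl
    have e2 : d + 1 + 1 + c - 1 = d + 1 + c := by omega
    rw [e1, e2]
    have h3 : (d + 1) * d + 2 ≤ (d + 1 + 1 + c) * (d + 1 + c) := by nlinarith
    omega
  rcases lt_trichotomy n m with h2 | h2 | h2
  · have := key n m hn h2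
    omega
  · exact h2
  · have := key m n hm h2
    omega

end Pool.Agent.Helper66.OB
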